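import Pool.Agent.NA.Stmts

/-! Squad NAL, row SWB (helper81): the initial sums of the block of a product sweep. -/

set_option autoImplicit false

open Finset Filter Topology

noncomputable section

namespace Pool.Agent.NA.H81

open Pool.Agent.BC Pool.Agent.NA

/-- `Qv` is additive -/
theorem Qv_add {V : Type} [NormedAddCommGroup V] [NormedSpace ℝ V] (k i : ℕ) (φ ψ : ℕ → V) (l : ℕ) :
    Qv k i (fun l' => φ l' + ψ l') l = Qv k i φ l + Qv k i ψ l := by
  unfold Qv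
  rw [sum_add_distrib, smul_add]

theorem Qv_smul {V : Type} [NormedAddCommGroup V] [NormedSpace ℝ V] (k i : ℕ) (a : ℝ) (φ : ℕ → V)
    (l : ℕ) : Qv k i (fun l' => a • φ l') l = a • Qv k i φ l := by
  unfold Qv
  rw [← smul_sum, smul_comm]

theorem Qv_sum {V ι : Type} [NormedAddCommGroup V] [NormedSpace ℝ V] (k i : ℕ) (t : Finset ι)
    (φ : ι → ℕ → V) (l : ℕ) :
    Qv k i (fun l' => ∑ q ∈ t, φ q l') l = ∑ q ∈ t, Qv k i (φ q) l := by
  unfold Qv
  rw [sum_comm, smul_sum]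

/-- row SWB -/
theorem swb (swa : SwaStmt) (qaa : QaaStmt) (qac : QacStmt) : SwbStmt := by
  intro X _ _ n r c ζ η s D e Em b f hS e₀ he₀ α i hi
  obtain ⟨hA1, hA2⟩ := swa X n r c ζ η s D e Em b f hS e₀ he₀ α
  obtain ⟨hn, hnc, hr0, hr1, hc0, hc1, hη0, hη1, hζ0, hζ1, hEm, hD, hDs, he, -⟩ := hS
  obtain ⟨m, hmn, hm⟩ := qac X s n i D hDs hi
  obtain ⟨qaa1, qaa2, qaa3⟩ := qaa
  set k : ℕ := ∑ q ∈ range n, s q with hk
  set y : X := e₀ + ∑ l ∈ range (2 ^ k), α l • lf s n c D e l with hy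
  set sα : ℝ := ∑ l ∈ range (2 ^ k), |α l| with hsα
  have hn0 : (0 : ℝ) < n := by exact_mod_cast hn
  have hsα0 : 0 ≤ sα := sum_nonneg fun l _ => abs_nonneg _
  -- the sum with bounded vectors
  have hbd : ∀ (φ : ℕ → X) (B : ℝ), (∀ l < 2 ^ k, ‖φ l‖ ≤ B) →
      ‖∑ l ∈ range (2 ^ k), α l • φ l‖ ≤ B * sα := by
    intro φ B h
    refine (norm_sum_le _ _).trans ?_
    rw [hsα, mul_sum]
    refine sum_le_sum fun l hl => ?_
    rw [norm_smul, Real.norm_eq_abs, mul_comm]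
    exact mul_le_mul_of_nonneg_right (h l (mem_range.mp hl)) (abs_nonneg _)
  have hix : ∀ q l, ix s n q l < 2 ^ s q := fun q l => Nat.mod_lt _ (by positivity)
  -- the average of the leaves
  let R : ℕ → X := fun l => if m < n then Qv k i (fun l' => D m (ix s n m l')) l else 0
  have hR : ∀ l < 2 ^ k, ‖R l‖ ≤ 2 := by
    intro l hl
    show ‖if m < n then Qv k i (fun l' => D m (ix s n m l')) l else 0‖ ≤ 2
    split_ifs with h
    · exact qaa3 X k i _ 2 hi (fun l' _ => (hD m h _ (hix m l')).1) l hl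
    · rw [norm_zero]
      norm_num
  have hlf : ∀ l < 2 ^ k, Qv k i (lf s n c D e) l =
      ((n : ℝ))⁻¹ • (∑ q ∈ range m, D q (ix s n q l)) + ((n : ℝ))⁻¹ • R l + c • Qv k i e l := by
    intro l hl
    have h1 : Qv k i (lf s n c D e) l =
        ((n : ℝ))⁻¹ • (∑ q ∈ range n, Qv k i (fun l' => D q (ix s n q l')) l) + c • Qv k i e l := by
      have h2 : lf s n c D e = fun l' =>
          ((n : ℝ))⁻¹ • (∑ q ∈ range n, D q (ix s n q l')) + c • e l' := rfl
      rw [h2, Qv_add, Qv_smul, Qv_smul, Qv_sum k i (range n) (fun q l' => D q (ix s n q l'))]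
    rw [h1, ← smul_add]
    congr 2
    obtain ⟨h3, h4⟩ := hm l hl
    rcases hmn.lt_or_eq with h | h
    · have h5 : range n = (range (m + 1)) ∪ (Ico (m + 1) n) := by
        ext q
        simp only [mem_range, mem_union, mem_Ico]
        omega
      have h6 : Disjoint (range (m + 1)) (Ico (m + 1) n) := by
        rw [disjoint_left]
        intro q hq hq'
        rw [mem_range] at hq
        rw [mem_Ico] at hq'
        omega
      have h7 : ∑ q ∈ Ico (m + 1) n, Qv k i (fun l' => D q (ix s n q l')) l = 0 :=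
        sum_eq_zero fun q hq => h4 q (by rw [mem_Ico] at hq; omega) (mem_Ico.mp hq).2
      rw [h5, sum_union h6, h7, add_zero, sum_range_succ]
      congr 1
      · exact sum_congr rfl fun q hq => h3 q (mem_range.mp hq)
      · show _ = if m < n then _ else _
        rw [if_pos h]
    · have h8 : R l = 0 := by
        show (if m < n then _ else _) = _
        rw [if_neg (by omega)]
      have h9 : range n = range m := by rw [h]
      rw [h8, add_zero, h9]
      exact sum_congr rfl fun q hq => h3 q (mem_range.mp hq)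
  have heq : e₀ + ∑ l ∈ range (2 ^ k), Qv k i α l • lf s n c D e l =
      (e₀ + ((n : ℝ))⁻¹ • ∑ q ∈ range m, ∑ l ∈ range (2 ^ k), α l • D q (ix s n q l)) +
        ((n : ℝ))⁻¹ • (∑ l ∈ range (2 ^ k), α l • R l) +
        c • ∑ l ∈ range (2 ^ k), α l • Qv k i e l := by
    rw [qaa1 X k i α (lf s n c D e) hi]
    have h1 : ∑ l ∈ range (2 ^ k), α l • Qv k i (lf s n c D e) l =
        ((n : ℝ))⁻¹ • (∑ q ∈ range m, ∑ l ∈ range (2 ^ k), α l • D q (ix s n q l)) +
        ((n : ℝ))⁻¹ • (∑ l ∈ range (2 ^ k), α l • R l) +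
        c • ∑ l ∈ range (2 ^ k), α l • Qv k i e l := by
      rw [sum_comm, smul_sum, smul_sum, smul_sum, ← sum_add_distrib, ← sum_add_distrib]
      refine sum_congr rfl fun l hl => ?_
      rw [hlf l (mem_range.mp hl), smul_add, smul_add, smul_comm (α l) ((n : ℝ))⁻¹,
        smul_comm (α l) ((n : ℝ))⁻¹, smul_comm (α l) c, smul_sum]
    rw [h1]
    abel
  rw [heq]
  have h1 : ‖e₀ + ((n : ℝ))⁻¹ • ∑ q ∈ range m, ∑ l ∈ range (2 ^ k), α l • D q (ix s n q l)‖ ≤
      (1 + η) * ‖y‖ := hA1 m hmn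
  have h2 : ‖((n : ℝ))⁻¹ • (∑ l ∈ range (2 ^ k), α l • R l)‖ ≤ c / 16 * sα := by
    rw [norm_smul, norm_inv, Real.norm_eq_abs, abs_of_pos hn0]
    have h3 := hbd R 2 hR
    have h4 : ((n : ℝ))⁻¹ * 2 ≤ c / 16 := by
      rw [inv_mul_le_iff₀ hn0]
      linarith
    calc ((n : ℝ))⁻¹ * ‖∑ l ∈ range (2 ^ k), α l • R l‖ ≤ ((n : ℝ))⁻¹ * (2 * sα) :=
          mul_le_mul_of_nonneg_left h3 (by positivity)
      _ = (((n : ℝ))⁻¹ * 2) * sα := by ring
      _ ≤ c / 16 * sα := mul_le_mul_of_nonneg_right h4 hsα0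
  have h5 : ‖c • ∑ l ∈ range (2 ^ k), α l • Qv k i e l‖ ≤ c * sα := by
    rw [norm_smul, Real.norm_eq_abs, abs_of_pos hc0]
    have h6 := hbd (Qv k i e) 1 (fun l hl => qaa3 X k i e 1 hi (fun l' _ => he l') l hl)
    rw [one_mul] at h6
    exact mul_le_mul_of_nonneg_left h6 hc0.le
  have h7 : ‖(e₀ + ((n : ℝ))⁻¹ • ∑ q ∈ range m, ∑ l ∈ range (2 ^ k), α l • D q (ix s n q l)) +
        ((n : ℝ))⁻¹ • (∑ l ∈ range (2 ^ k), α l • R l) +
        c • ∑ l ∈ range (2 ^ k), α l • Qv k i e l‖ ≤ (1 + η) * ‖y‖ + c / 16 * sα + c * sα :=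
    (norm_add₃_le).trans (add_le_add (add_le_add h1 h2) h5)
  refine h7.trans ?_
  have h8 : c * sα ≤ 4 / r * ‖y‖ := by
    have h9 : c * r / 4 * sα ≤ ‖y‖ := hA2
    rw [div_mul_eq_mul_div, le_div_iff₀ hr0]
    linarith
  have hy0 : 0 ≤ ‖y‖ := norm_nonneg _
  have h10 : (1 + η) * ‖y‖ ≤ 11 / 10 * (1 / r * ‖y‖) := by
    have h11 : ‖y‖ ≤ 1 / r * ‖y‖ := by
      rw [div_mul_eq_mul_div, one_mul, le_div_iff₀ hr0]
      exact mul_le_of_le_one_right hy0 hr1
    calc (1 + η) * ‖y‖ ≤ 11 / 10 * ‖y‖ := mul_le_mul_of_nonneg_right (by linarith) hy0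
      _ ≤ _ := mul_le_mul_of_nonneg_left h11 (by norm_num)
  have h12 : 0 ≤ 1 / r * ‖y‖ := by positivity
  have h13 : 4 / r * ‖y‖ = 4 * (1 / r * ‖y‖) := by ring
  have h14 : 6 / r * ‖y‖ = 6 * (1 / r * ‖y‖) := by ring
  rw [h13] at h8
  rw [h14]
  linarith

end Pool.Agent.NA.H81
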